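import Pool.Agent.H456R3.I.Main

/-!
# MP_2231f7_an: uniqueness of infinity-harmonic circle-valued maps on planar annuli

For every annular region `Ω` and every Lipschitz `u₀ : closure Ω → ℝ/ℤ`, any two infinity-harmonic
maps with data `u₀` (uniform limits of minimisers of `E_{p_j}`, `p_j → ∞`, in the class
`C_{p_j}(u₀)`) coincide.  The same holds for every bounded open set `Ω` of the plane and every
continuous `u₀`.
-/

namespace Pool.Agent.Results.MP_2231f7_an.InftyHarmonicUnique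

open Pool.Agent.H456R3.I

theorem result :
    (∀ Ω : Set E2, IsAnnular Ω → ∀ u₀ : C(closure Ω, S1), (∃ K : NNReal, LipschitzWith K u₀) →
      ∀ u u' : C(closure Ω, S1), IsInftyHarmonic Ω u₀ u → IsInftyHarmonic Ω u₀ u' → u = u') ∧
    (∀ Ω : Set E2, IsOpen Ω → Bornology.IsBounded Ω → ∀ u₀ u u' : C(closure Ω, S1),
      IsInftyHarmonic Ω u₀ u → IsInftyHarmonic Ω u₀ u' → u = u') :=
  ⟨fun _ hΩ _ _ _ _ hu hu' => unique hΩ.1 hΩ.2.2.1 hu hu',
    fun _ hΩ hb _ _ _ hu hu' => unique hΩ hb hu hu'⟩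

end Pool.Agent.Results.MP_2231f7_an.InftyHarmonicUnique
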